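import Pool.Agent.N924.CH.Indep
import Pool.Agent.N924.CG.Cls2

set_option autoImplicit false

/-! # Quadratic extensions: one class of polynomials -/

namespace Pool.Agent.N924.CH

open Polynomial Pool.Agent.H33R4 Pool.Agent.N924.LP
open Pool.Agent.N924.CG (gp gp_monic gp_natDegree gp_map IsD HasD ZZ ZZ_apply log_pow log_cong
  sys_char sys_der dvd_of_mul map_map_adj fin_dvd)

noncomputable section

variable {p : ℕ} [hp : Fact p.Prime]

theorem log_prod {B : Type} [CommRing B] {ι : Type} (s : Finset ι) (x l : ι → B)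
    (hx : ∀ k, IsLog p (x k) (l k)) (n : ι → ℕ) :
    IsLog p (∏ k ∈ s, x k ^ n k) (∑ k ∈ s, (n k : B) * l k) := by
  classical
  induction s using Finset.induction_on with
  | empty => simpa using (logB_proof p hp.out B).1
  | insert k s hk ih =>
    rw [Finset.prod_insert hk, Finset.sum_insert hk]
    exact (logB_proof p hp.out B).2.1 _ _ _ _ (log_pow (hx k) _) ih

/-- `P(θ)` is prime to `p`, for the root `θ` of the polynomial `g(X ²)` with coefficients `z` -/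
def Cop (p : ℕ) {n : ℕ} (z : Fin n → ℤ) (P : ℤ[X]) : Prop :=
  IsCoprime ((fp z).map (Int.castRingHom (ZMod p))) (P.map (Int.castRingHom (ZMod p)))

omit hp in
theorem cop_neg {n : ℕ} {z : Fin n → ℤ} {P : ℤ[X]} (h : Cop p z P) : Cop p z (neg P) := by
  unfold Cop at h ⊢
  have h1 := h.map (Polynomial.compRingHom (-X : (ZMod p)[X]))
  simp only [coe_compRingHom_apply] at h1
  have e1 : ((fp z).map (Int.castRingHom (ZMod p))).comp (-X) =
      (fp z).map (Int.castRingHom (ZMod p)) := by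
    rw [fp_map]
    unfold fp
    rw [comp_assoc, pow_comp, X_comp, neg_sq]
  have e2 : (P.map (Int.castRingHom (ZMod p))).comp (-X) =
      (neg P).map (Int.castRingHom (ZMod p)) := by
    unfold neg
    rw [Polynomial.map_comp, Polynomial.map_neg, map_X]
  rwa [e1, e2] at h1

omit hp in
theorem cop_both {n : ℕ} {z : Fin n → ℤ} {r : ℕ} {P : Fin r → ℤ[X]} (h : ∀ k, Cop p z (P k))
    (i : Fin r ⊕ Fin r) : Cop p z (both P i) := by
  rcases i with k | k
  · exact h k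
  · exact cop_neg (h k)

theorem exists_exp {n : ℕ} (S : Sys p n) (ρ : Fin n → ℤ) {ι : Type} (P : ι → ℤ[X])
    (hP : ∀ k, Cop p ρ (P k)) :
    ∃ M : ℕ, 0 < M ∧ ∀ k, (p : AdjoinRoot (fp (ZZ S ρ))) ∣
      (AdjoinRoot.mk (fp (ZZ S ρ)) ((P k).map (Int.castRingHom S.R))) ^ M - 1 := by
  classical
  set B := AdjoinRoot (fp (ZZ S ρ)) with hB
  set I : Ideal B := Ideal.span {(p : B)} with hI
  let q : B →+* B ⧸ I := Ideal.Quotient.mk I
  have hqp : q (p : B) = 0 := Ideal.Quotient.eq_zero_iff_mem.2 (Ideal.mem_span_singleton_self _)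
  have hqp' : ((p : ℕ) : B ⧸ I) = 0 := by rw [← map_natCast q p, hqp]
  have hp0 : ∀ a ∈ Ideal.span {(p : ℤ)}, (Int.castRingHom (B ⧸ I)) a = 0 := by
    intro a ha
    rw [Ideal.mem_span_singleton] at ha
    obtain ⟨b, rfl⟩ := ha
    rw [map_mul]
    have : (Int.castRingHom (B ⧸ I)) (p : ℤ) = 0 := by
      simp only [map_natCast]
      exact hqp'
    rw [this, zero_mul]
  let c : ZMod p →+* B ⧸ I := (Ideal.Quotient.lift (Ideal.span {(p : ℤ)})
    (Int.castRingHom (B ⧸ I)) hp0).comp (Int.quotientSpanNatEquivZMod p).symm.toRingHom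
  let κ : S.R →+* B ⧸ I := q.comp (AdjoinRoot.of (fp (ZZ S ρ)))
  let t : B ⧸ I := q (AdjoinRoot.root _)
  have hq : ∀ Q : S.R[X], q (AdjoinRoot.mk (fp (ZZ S ρ)) Q) = (Q.map κ).eval t := by
    intro Q
    have h1 : AdjoinRoot.mk (fp (ZZ S ρ)) Q =
        (Q.map (AdjoinRoot.of (fp (ZZ S ρ)))).eval (AdjoinRoot.root _) := by
      rw [eval_map]
      exact (AdjoinRoot.aeval_eq _).symm
    rw [h1, ← Polynomial.eval₂_at_apply, ← Polynomial.eval_map, Polynomial.map_map]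
  have hZ : (fp (ZZ S ρ)).map κ = (fp ρ).map (Int.castRingHom (B ⧸ I)) := by
    rw [fp_map, fp_map]
    congr 1
    funext i
    rw [ZZ_apply, map_add, map_mul, map_intCast, map_natCast, hqp', zero_mul, add_zero, eq_intCast]
  have hPm : ∀ P : ℤ[X], ((P.map (Int.castRingHom S.R)).map κ) =
      P.map (Int.castRingHom (B ⧸ I)) := by
    intro P
    rw [Polynomial.map_map]
    exact congrArg (fun φ => P.map φ) (RingHom.ext_int _ _)
  have hPc : ∀ P : ℤ[X], ((P.map (Int.castRingHom (ZMod p))).map c) =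
      P.map (Int.castRingHom (B ⧸ I)) := by
    intro P
    rw [Polynomial.map_map]
    exact congrArg (fun φ => P.map φ) (RingHom.ext_int _ _)
  set f0 : (ZMod p)[X] := (fp ρ).map (Int.castRingHom (ZMod p)) with hf0
  have hf0m : f0.Monic := (fp_monic ρ).map _
  have hlift : f0.eval₂ c t = 0 := by
    rw [← Polynomial.eval_map, hf0, hPc, ← hZ, ← hq, AdjoinRoot.mk_self, map_zero]
  let ψ : AdjoinRoot f0 →+* B ⧸ I := AdjoinRoot.lift c _ hlift
  have hψ : ∀ P : ℤ[X], ψ (AdjoinRoot.mk f0 (P.map (Int.castRingHom (ZMod p)))) =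
      q (AdjoinRoot.mk _ (P.map (Int.castRingHom S.R))) := by
    intro P
    rw [hq, hPm]
    change AdjoinRoot.lift c _ hlift _ = _
    rw [AdjoinRoot.lift_mk, ← Polynomial.eval_map, hPc]
  have _ : Module.Finite (ZMod p) (AdjoinRoot f0) := hf0m.finite_adjoinRoot
  have _ : Finite (AdjoinRoot f0) := Module.finite_of_finite (ZMod p)
  have _ : Finite (AdjoinRoot f0)ˣ := inferInstance
  refine ⟨Nat.card (AdjoinRoot f0)ˣ, Nat.card_pos, fun k => ?_⟩
  obtain ⟨a, b, hab⟩ := hP k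
  have hmul : AdjoinRoot.mk f0 ((P k).map (Int.castRingHom (ZMod p))) * AdjoinRoot.mk f0 b = 1 := by
    have h2 := congrArg (AdjoinRoot.mk f0) hab
    rw [map_add, map_mul, map_mul, AdjoinRoot.mk_self, mul_zero, zero_add, map_one] at h2
    rw [mul_comm]
    exact h2
  let U : (AdjoinRoot f0)ˣ := ⟨_, _, hmul, by rw [mul_comm]; exact hmul⟩
  have hU : U ^ Nat.card (AdjoinRoot f0)ˣ = 1 := pow_card_eq_one'
  have hU2 : (AdjoinRoot.mk f0 ((P k).map (Int.castRingHom (ZMod p)))) ^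
      Nat.card (AdjoinRoot f0)ˣ = 1 := by
    have := congrArg Units.val hU
    rw [Units.val_pow_eq_pow_val, Units.val_one] at this
    exact this
  have h4 := congrArg ψ hU2
  rw [map_pow, hψ, map_one, ← map_pow, ← sub_eq_zero, ← map_one q, ← map_sub] at h4
  exact Ideal.mem_span_singleton.1 (Ideal.Quotient.eq_zero_iff_mem.1 h4)

/-- `ℤ_p[θ]` -/
abbrev Zt (p : ℕ) [Fact p.Prime] {n : ℕ} (z : Fin n → ℤ) : Type :=
  AdjoinRoot ((fp z).map (Int.castRingHom ℤ_[p]))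

/-- the value at `θ` in `ℤ_p[θ]` -/
def vl (p : ℕ) [Fact p.Prime] {n : ℕ} (z : Fin n → ℤ) (Q : ℤ[X]) : Zt p z :=
  AdjoinRoot.mk _ (Q.map (Int.castRingHom ℤ_[p]))

/-- **Independence over `ℤ_p`** of the `P_k(θ) / P_k(-θ)` -/
def IndH (p : ℕ) [Fact p.Prime] {n : ℕ} (z : Fin n → ℤ) {r : ℕ} (P : Fin r → ℤ[X]) : Prop :=
  ∃ c : ℕ, ∀ (N : ℕ) (a b : Fin r → ℕ),
    (p : Zt p z) ^ (N + c) ∣ vl p z (∏ k, (P k ^ a k * neg (P k) ^ b k) -
      ∏ k, (P k ^ b k * neg (P k) ^ a k)) →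
    ∀ k, (p : ℤ) ^ N ∣ (a k : ℤ) - b k

theorem ev_fp {n : ℕ} (S : Sys p n) (ρ z y : Fin n → ℤ)
    (hz : ∀ i, z i = ρ i + (p : ℤ) ^ 2 * y i) :
    (fp (ZZ S ρ)).map (S.ev fun i => ((y i : ℤ) : ℤ_[p])) =
      (fp z).map (Int.castRingHom ℤ_[p]) := by
  rw [fp_map, fp_map]
  congr 1
  funext i
  rw [ZZ_apply, map_add, map_mul, map_intCast, map_natCast, S.ev_x, hz, eq_intCast]
  push_cast
  ring

/-- the relation between the logarithms modulo `p ^ T` -/
theorem rel {n : ℕ} (S : Sys p n) (ρ z y : Fin n → ℤ) (hz : ∀ i, z i = ρ i + (p : ℤ) ^ 2 * y i)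
    {r : ℕ} (P : Fin r → ℤ[X]) (M : ℕ) (L : Fin r ⊕ Fin r → AdjoinRoot (fp (ZZ S ρ)))
    (hL : ∀ k, IsLog p ((AdjoinRoot.mk (fp (ZZ S ρ))
      ((both P k).map (Int.castRingHom S.R))) ^ M) (L k))
    (a b : Fin r → ℕ) (T : ℕ) (hT : 1 ≤ T)
    (h : (p : Zt p z) ^ T ∣ vl p z (∏ k, (P k ^ a k * neg (P k) ^ b k) -
      ∏ k, (P k ^ b k * neg (P k) ^ a k)))
    (φ : S.R →+* ZMod (p ^ T))
    (hφ : φ = (PadicInt.toZModPow T).comp (S.ev fun i => ((y i : ℤ) : ℤ_[p]))) :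
    ∑ k, AdjoinRoot.of ((fp (ZZ S ρ)).map φ) ((((a k : ℤ) - b k : ℤ)) : ZMod (p ^ T)) *
      AdjoinRoot.map φ (fp (ZZ S ρ)) ((fp (ZZ S ρ)).map φ) dvd_rfl
        (L (Sum.inl k) - L (Sum.inr k)) = 0 := by
  subst hφ
  set ev := S.ev fun i => ((y i : ℤ) : ℤ_[p]) with hev
  have hF : (fp (ZZ S ρ)).map ev = (fp z).map (Int.castRingHom ℤ_[p]) := ev_fp S ρ z y hz
  have hB : PGood p (AdjoinRoot ((fp (ZZ S ρ)).map ev)) :=
    good2_proof p _ _ ((fp_monic _).map _) (good1_proof.1 p)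
  obtain ⟨u, hu⟩ : ∃ u : Fin r ⊕ Fin r → AdjoinRoot ((fp (ZZ S ρ)).map ev), u = fun k =>
    AdjoinRoot.mk _ ((both P k).map (Int.castRingHom ℤ_[p])) := ⟨_, rfl⟩
  have hsum : ∀ c d : Fin r → ℕ, ∏ k, (P k ^ c k * neg (P k) ^ d k) =
      ∏ i, both P i ^ (Sum.elim c d : Fin r ⊕ Fin r → ℕ) i := by
    intro c d
    rw [Fintype.prod_sum_type, Finset.prod_mul_distrib]
    rfl
  have h1 : (p : AdjoinRoot ((fp (ZZ S ρ)).map ev)) ^ T ∣
      ∏ i, u i ^ (Sum.elim a b : Fin r ⊕ Fin r → ℕ) i -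
        ∏ i, u i ^ (Sum.elim b a : Fin r ⊕ Fin r → ℕ) i := by
    unfold vl Zt at h
    rw [← hF] at h
    have e1 : ∀ c : Fin r ⊕ Fin r → ℕ, AdjoinRoot.mk ((fp (ZZ S ρ)).map ev)
        ((∏ k, both P k ^ c k).map (Int.castRingHom ℤ_[p])) = ∏ k, u k ^ c k := by
      intro c
      rw [Polynomial.map_prod, map_prod, hu]
      refine Finset.prod_congr rfl fun k _ => ?_
      rw [Polynomial.map_pow, map_pow]
    rw [hsum, hsum, Polynomial.map_sub, map_sub, e1, e1] at h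
    exact h
  let l : Fin r ⊕ Fin r → AdjoinRoot ((fp (ZZ S ρ)).map ev) := fun k =>
    AdjoinRoot.map ev (fp (ZZ S ρ)) ((fp (ZZ S ρ)).map ev) dvd_rfl (L k)
  have hl : ∀ k, IsLog p (u k ^ M) (l k) := by
    intro k
    have h3 := (logB_proof p hp.out _).2.2.2.1 _
      (AdjoinRoot.map ev (fp (ZZ S ρ)) ((fp (ZZ S ρ)).map ev) dvd_rfl) _ _ (hL k)
    rw [map_pow, adj_map_mk, Polynomial.map_map] at h3
    have e1 : ev.comp (Int.castRingHom S.R) = Int.castRingHom ℤ_[p] := RingHom.ext_int _ _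
    rw [e1] at h3
    rw [hu]
    exact h3
  have hy : ∀ c : Fin r ⊕ Fin r → ℕ, IsLog p ((∏ k, u k ^ c k) ^ M)
      (∑ k, (c k : AdjoinRoot ((fp (ZZ S ρ)).map ev)) * l k) := by
    intro c
    have h3 := log_prod Finset.univ _ _ hl c
    have e1 : (∏ k, u k ^ c k) ^ M = ∏ k, (u k ^ M) ^ c k := by
      rw [← Finset.prod_pow]
      refine Finset.prod_congr rfl fun k _ => ?_
      rw [← pow_mul, ← pow_mul, mul_comm]
    rw [e1]
    exact h3
  have h5 := log_cong hB (hy _) (hy _) hT (h1.trans (sub_dvd_pow_sub_pow _ _ M))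
  let χ : AdjoinRoot ((fp (ZZ S ρ)).map ev) →+*
      AdjoinRoot ((fp (ZZ S ρ)).map ((PadicInt.toZModPow T).comp ev)) :=
    AdjoinRoot.map (PadicInt.toZModPow T) _ _ (by rw [Polynomial.map_map])
  have hχ : ∀ x, χ (AdjoinRoot.map ev (fp (ZZ S ρ)) ((fp (ZZ S ρ)).map ev) dvd_rfl x) =
      AdjoinRoot.map ((PadicInt.toZModPow T).comp ev) (fp (ZZ S ρ)) _ dvd_rfl x :=
    fun x => map_map_adj _ _ _ _ x
  have h6 := map_dvd χ h5
  have h7 : χ ((p : AdjoinRoot ((fp (ZZ S ρ)).map ev)) ^ T) = 0 := by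
    rw [map_pow, map_natCast]
    have h8 : ((p : ZMod (p ^ T))) ^ T = 0 := by
      have := ZMod.natCast_self (p ^ T)
      rwa [Nat.cast_pow] at this
    have h9 := congrArg (AdjoinRoot.of ((fp (ZZ S ρ)).map ((PadicInt.toZModPow T).comp ev))) h8
    rw [map_pow, map_natCast, map_zero] at h9
    exact h9
  rw [h7, zero_dvd_iff, map_sub, map_sum, map_sum, Fintype.sum_sum_type,
    Fintype.sum_sum_type] at h6
  simp only [map_mul, map_natCast, hχ, l, Sum.elim_inl, Sum.elim_inr] at h6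
  have h8 : ∀ k, AdjoinRoot.of ((fp (ZZ S ρ)).map ((PadicInt.toZModPow T).comp ev))
      ((((a k : ℤ) - b k : ℤ)) : ZMod (p ^ T)) =
      (a k : AdjoinRoot ((fp (ZZ S ρ)).map ((PadicInt.toZModPow T).comp ev))) - b k := by
    intro k
    push_cast
    rw [map_sub, map_natCast, map_natCast]
  simp only [h8, sub_mul, mul_sub, map_sub, Finset.sum_sub_distrib]
  linear_combination h6

/-- **One class.** -/
theorem cls0 {n : ℕ} (S : Sys p n) (hS : HasD S) {r : ℕ} (hr : r ≤ n) (P : Fin r → ℤ[X])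
    (hP : MulIndH P) (ρ : Fin n → ℤ) (hcop : ∀ k, Cop p ρ (P k)) :
    ∃ h : S.R, h ≠ 0 ∧ ∀ z y : Fin n → ℤ, (∀ i, z i = ρ i + (p : ℤ) ^ 2 * y i) →
      ¬ IndH p z P → S.ev (fun i => ((y i : ℤ) : ℤ_[p])) h = 0 := by
  have _ := sys_char S
  obtain ⟨M, hM, hMu⟩ := exists_exp S ρ (both P) (cop_both hcop)
  have hgood : PGood p (AdjoinRoot (fp (ZZ S ρ))) := good2_proof p _ _ (fp_monic _) S.good
  choose L hL using fun k => logEx_proof p hp.out _ hgood _ (hMu k)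
  obtain ⟨h, h0, hh⟩ := dual_proof S.R (fp (ZZ S ρ)) (fp_monic _) r
    (fun k => L (Sum.inl k) - L (Sum.inr k))
    (indep p hp.out S.R S.good (ZZ S ρ) (sys_der S hS ρ) hr P hP.lin hP.ne_zero M hM L hL)
  refine ⟨h, h0, fun z y hz hbad => ?_⟩
  by_contra hne
  obtain ⟨v, hv⟩ := dvd_of_mul hne
  apply hbad
  refine ⟨v + 1, fun N a b hdvd k => ?_⟩
  have h1 := rel S ρ z y hz P M L hL a b (N + (v + 1)) (by omega) hdvd _ rfl
  exact fin_dvd hv N _ (hh _ _ _ h1 k)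

end

end Pool.Agent.N924.CH
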