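import Pool.Agent.N924.CG.Indep
import Pool.Agent.N924.CG.Mul

set_option autoImplicit false

/-! # Quadratic extensions: independence of the logarithms of `P(θ) / P(-θ)` -/

namespace Pool.Agent.N924.CH

open Polynomial Pool.Agent.H33R4 Pool.Agent.N924.LP Pool.Agent.N924.CG

noncomputable section

/-- the polynomial `g(X ²)` -/
def fp {B : Type} [CommRing B] {n : ℕ} (z : Fin n → B) : B[X] := (gp z).comp (X ^ 2)

theorem fp_map {A B : Type} [CommRing A] [CommRing B] (φ : A →+* B) {n : ℕ} (z : Fin n → A) :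
    (fp z).map φ = fp fun i => φ (z i) := by
  unfold fp
  rw [Polynomial.map_comp, gp_map, Polynomial.map_pow, map_X]

theorem fp_monic {B : Type} [CommRing B] {n : ℕ} (z : Fin n → B) : (fp z).Monic := by
  nontriviality B
  unfold fp
  exact (gp_monic z).comp (monic_X_pow 2) (by rw [natDegree_X_pow]; norm_num)

theorem fp_natDegree {B : Type} [CommRing B] [IsDomain B] {n : ℕ} (z : Fin n → B) :
    (fp z).natDegree = n * 2 := by
  unfold fp
  rw [natDegree_comp, gp_natDegree, natDegree_X_pow]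

/-- `P(-X)` -/
def neg (P : ℤ[X]) : ℤ[X] := P.comp (-X)

theorem neg_aeval {W : Type} [CommRing W] (P : ℤ[X]) (x : W) :
    aeval x (neg P) = aeval (-x) P := by
  unfold neg
  rw [aeval_comp, map_neg, aeval_X]

/-- both families -/
def both {r : ℕ} (P : Fin r → ℤ[X]) : Fin r ⊕ Fin r → ℤ[X] := Sum.elim P fun k => neg (P k)

/-- the numerators -/
def nm {ι : Type} [Fintype ι] [DecidableEq ι] (P : ι → ℤ[X]) (k : ι) : ℤ[X] :=
  derivative (P k) * ∏ l ∈ Finset.univ.erase k, P l

/-- the numerators of the logarithmic derivatives of `P(X) / P(-X)` -/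
def numH {r : ℕ} (P : Fin r → ℤ[X]) (k : Fin r) : ℤ[X] :=
  nm (both P) (Sum.inl k) - nm (both P) (Sum.inr k)

/-- the matrix of the logarithms -/
theorem exists_mat (p : ℕ) (hp : p.Prime) (R : Type) [CommRing R] [IsDomain R] [CharZero R]
    (hR : PGood p R) {n : ℕ} (hn : 0 < n) (Z : Fin n → R)
    (hd : ∀ i, ∃ d : R → R, IsD d ∧ ∀ j, d (Z j) = if i = j then (p : R) else 0)
    {r : ℕ} (P : Fin r → ℤ[X]) (hP : LinearIndependent ℤ (numH P))
    (hP0 : ∀ i, both P i ≠ 0) (M : ℕ) (hM : 0 < M)
    (L : Fin r ⊕ Fin r → AdjoinRoot (fp Z))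
    (hL : ∀ k, IsLog p ((AdjoinRoot.mk (fp Z) ((both P k).map (Int.castRingHom R))) ^ M) (L k)) :
    ∃ (W : Type) (_ : Field W) (j : R →+* W) (σ : Fin n → (AdjoinRoot (fp Z) →+* W)),
      Function.Injective j ∧ (∀ l a, σ l (AdjoinRoot.of _ a) = j a) ∧
      ∀ (J : Fin r → Fin n), Function.Injective J →
        (Matrix.of fun k l => σ (J l) (L (Sum.inl k) - L (Sum.inr k)) - (0 : Fin r → W) k).det ≠
          0 := by
  classical
  obtain ⟨W, _, _, j, hj, hsp0, hext⟩ := exists_ext R (gp Z * fp Z)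
  have hpW : (p : W) ≠ 0 := by exact_mod_cast hp.ne_zero
  choose d hd0 hd1 using hd
  choose D hD using fun i => hext (d i) (hd0 i)
  have hmul0 : (gp Z).map j * (fp Z).map j ≠ 0 :=
    mul_ne_zero ((gp_monic Z).map j).ne_zero ((fp_monic Z).map j).ne_zero
  rw [Polynomial.map_mul] at hsp0
  have hsp : ((gp Z).map j).Splits := Splits.of_dvd hsp0 hmul0 (dvd_mul_right _ _)
  have hspF : ((fp Z).map j).Splits := Splits.of_dvd hsp0 hmul0 (dvd_mul_left _ _)
  have hmap : (gp Z).map j = gp fun i => j (Z i) := gp_map j Z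
  have hcard : ((gp Z).map j).roots.card = n := by
    rw [← hsp.natDegree_eq_card_roots, hmap, gp_natDegree]
  obtain ⟨w, hw⟩ := exists_enum _ n hcard
  have hprod : (gp Z).map j = ∏ l, (X - C (w l)) := by
    have h2 := hsp.eq_prod_roots_of_monic ((gp_monic Z).map j)
    rw [h2, hw, Multiset.map_map]
    rfl
  have hprod' : gp (fun i => j (Z i)) = ∏ l, (X - C (w l)) := by rw [← hmap, hprod]
  have hDZ : ∀ i l, D i (j (Z l)) = if i = l then (p : W) else 0 := by
    intro i l
    rw [hD, hd1]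
    split_ifs
    · exact map_natCast j p
    · exact map_zero j
  obtain ⟨hF, c, E, hE, hEw⟩ := root_der hn p hpW D (fun i => j (Z i)) hDZ w hprod'
  have hfprod : (fp Z).map j = ∏ l, (X ^ 2 - C (w l)) := by
    unfold fp
    rw [Polynomial.map_comp, hprod, Polynomial.map_pow, map_X, Polynomial.prod_comp]
    refine Finset.prod_congr rfl fun l _ => ?_
    rw [sub_comp, X_comp, C_comp]
  -- square roots
  have hsq : ∀ l, ∃ t : W, t ^ 2 = w l := by
    intro l
    have h1 : (X ^ 2 - C (w l) : W[X]).Splits := by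
      refine Splits.of_dvd hspF ((fp_monic Z).map j).ne_zero ?_
      rw [hfprod]
      exact Finset.dvd_prod_of_mem _ (Finset.mem_univ l)
    have h2 : (X ^ 2 - C (w l) : W[X]).degree ≠ 0 := by
      rw [degree_X_pow_sub_C (by norm_num)]
      norm_num
    obtain ⟨t, ht⟩ := h1.exists_eval_eq_zero h2
    rw [eval_sub, eval_pow, eval_X, eval_C, sub_eq_zero] at ht
    exact ⟨t, ht⟩
  choose θ hθ using hsq
  have hwinj : Function.Injective w := by
    intro a b hab
    by_contra hne
    have h1 := hEw a a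
    rw [if_pos rfl, hab, hEw, if_neg hne] at h1
    exact hpW h1.symm
  have hw0 : ∀ l, w l ≠ 0 := by
    intro l h0
    have h1 := hEw l l
    rw [if_pos rfl, h0, map_zero] at h1
    exact hpW h1.symm
  have hθ0 : ∀ l, θ l ≠ 0 := by
    intro l h0
    apply hw0 l
    rw [← hθ, h0, zero_pow two_ne_zero]
  have h20 : (2 : W) ≠ 0 := two_ne_zero
  have hsep : ((fp Z).map j).Separable := by
    have h1 : (fp Z).map j = ∏ q : Fin n × Bool, (X - C (if q.2 then θ q.1 else - θ q.1)) := by
      rw [hfprod, Fintype.prod_prod_type]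
      refine Finset.prod_congr rfl fun l _ => ?_
      rw [Fintype.prod_bool, ← hθ l]
      simp only [if_true, Bool.false_eq_true, if_false, map_neg, map_pow]
      ring
    rw [h1]
    refine separable_prod_X_sub_C_iff.2 ?_
    rintro ⟨a, s⟩ ⟨b, t⟩ hab
    have h2 : w a = w b := by
      have h3 := congrArg (fun x => x ^ 2) hab
      simp only at h3
      have h4 : ∀ (l : Fin n) (u : Bool), (if u then θ l else - θ l) ^ 2 = w l := by
        intro l u
        split_ifs
        · exact hθ l
        · rw [neg_sq, hθ l]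
      rwa [h4, h4] at h3
    have h3 := hwinj h2
    subst h3
    rcases s with _ | _ <;> rcases t with _ | _
    · rfl
    · exfalso
      simp only [Bool.false_eq_true, if_false, if_true] at hab
      have h5 : (2 : W) * θ a = 0 := by linear_combination -hab
      exact (mul_ne_zero h20 (hθ0 a)) h5
    · exfalso
      simp only [Bool.false_eq_true, if_false, if_true] at hab
      have h5 : (2 : W) * θ a = 0 := by linear_combination hab
      exact (mul_ne_zero h20 (hθ0 a)) h5
    · rfl
  have hEθ : ∀ m l, 2 * θ l * E m (θ l) = if m = l then (p : W) else 0 := by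
    intro m l
    rw [← hEw, ← hθ l, Derivation.leibniz_pow]
    simp
    ring
  have hEθ1 : ∀ m l, m ≠ l → E m (θ l) = 0 := by
    intro m l h
    have h1 := hEθ m l
    rw [if_neg h] at h1
    exact (mul_eq_zero.1 h1).resolve_left (mul_ne_zero h20 (hθ0 l))
  have hEθ0 : ∀ m, E m (θ m) ≠ 0 := by
    intro m h0
    have h1 := hEθ m m
    rw [if_pos rfl, h0, mul_zero] at h1
    exact hpW h1.symm
  have hev : ∀ l, (fp Z).eval₂ j (θ l) = 0 := by
    intro l
    rw [← Polynomial.eval_map, hfprod, eval_prod]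
    exact Finset.prod_eq_zero (Finset.mem_univ l) (by simp [hθ])
  let σ : Fin n → (AdjoinRoot (fp Z) →+* W) := fun l => AdjoinRoot.lift j (θ l) (hev l)
  have hσof : ∀ l a, σ l (AdjoinRoot.of _ a) = j a := fun l a => AdjoinRoot.lift_of _
  have hσmk : ∀ l (P : ℤ[X]), σ l (AdjoinRoot.mk _ (P.map (Int.castRingHom R))) =
      aeval (θ l) P := by
    intro l P
    change AdjoinRoot.lift j (θ l) (hev l) _ = _
    rw [AdjoinRoot.lift_mk, Polynomial.eval₂_map, aeval_def]
    congr 1
    exact RingHom.ext_int _ _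
  have hne : ∀ k l, aeval (θ l) (both P k) ≠ 0 := by
    intro k l h0
    have h1 := poly_zero (E l) (hEθ0 l) _ ((both P k).map (Int.castRingHom W)) le_rfl (fun i => by
      rw [coeff_map, eq_intCast]
      exact (E l).map_intCast _) (by
      rw [eval_map]
      exact h0)
    exact hP0 k ((Polynomial.map_eq_zero_iff (RingHom.injective_int _)).1 h1)
  have hM0 : (M : W) ≠ 0 := by exact_mod_cast hM.ne'
  have hlog : ∀ i k l, aeval (θ l) (both P k) * D i (σ l (L k)) =
      M * D i (aeval (θ l) (both P k)) := by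
    intro i k l
    obtain ⟨d', hd'⟩ := exists_der (d i) (hd0 i).add (hd0 i).mul
    have h2 := dLog_of logB_proof good2_proof derL_proof p hp R (fp Z) (fp_monic Z) hR
      d' W j hj hsep (D i) (fun a => by rw [hd']; exact hD i a) (σ l) (hσof l) _ _ (hL k)
    rw [map_pow, hσmk, Derivation.leibniz_pow] at h2
    simp only [smul_eq_mul, nsmul_eq_mul] at h2
    have h3 := hne k l
    have h4 : (aeval (θ l) (both P k)) ^ M =
        (aeval (θ l) (both P k)) ^ (M - 1) * aeval (θ l) (both P k) := by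
      rw [← pow_succ]
      congr 1
      omega
    rw [h4] at h2
    have h5 : (aeval (θ l) (both P k)) ^ (M - 1) ≠ 0 := pow_ne_zero _ h3
    apply mul_left_cancel₀ h5
    linear_combination -h2
  have hElog : ∀ m k l, aeval (θ l) (both P k) * E m (σ l (L k)) =
      M * (aeval (θ l) (derivative (both P k)) * E m (θ l)) := by
    intro m k l
    have h1 : E m (aeval (θ l) (both P k)) =
        aeval (θ l) (derivative (both P k)) * E m (θ l) := by
      rw [Derivation.map_aeval, smul_eq_mul]
    rw [← h1, hE, hE, Finset.mul_sum, Finset.mul_sum]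
    refine Finset.sum_congr rfl fun i _ => ?_
    linear_combination (c m i) * hlog i k l
  refine ⟨W, inferInstance, j, σ, hj, hσof, fun J hJ => ?_⟩
  have hzero : ∀ m k l, m ≠ l → E m (σ l (L k)) = 0 := by
    intro m k l hml
    have h1 := hElog m k l
    rw [hEθ1 m l hml, mul_zero, mul_zero] at h1
    exact (mul_eq_zero.1 h1).resolve_left (hne k l)
  refine det_ne E r (fun k l => σ l (L (Sum.inl k) - L (Sum.inr k))) ?_ ?_ J hJ 0 ?_
  · intro k m l hml
    simp only [map_sub]
    rw [hzero m _ l hml, hzero m _ l hml, sub_zero]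
  · intro m x hx hs
    have h1 : ∀ k, E m (σ m (L k)) * ∏ l, aeval (θ m) (both P l) =
        M * E m (θ m) * aeval (θ m) (nm (both P) k) := by
      intro k
      rw [← Finset.mul_prod_erase Finset.univ (fun l => aeval (θ m) (both P l))
        (Finset.mem_univ k)]
      have h2 := hElog m k m
      unfold nm
      rw [map_mul, map_prod]
      linear_combination (∏ l ∈ Finset.univ.erase k, aeval (θ m) (both P l)) * h2
    refine indep_const (E m) (hEθ0 m) (numH P) hP x hx ?_
    have h3 : (M : W) * E m (θ m) * ∑ k, x k * aeval (θ m) (numH P k) = 0 := by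
      rw [Finset.mul_sum]
      have h4 : ∀ k, (M : W) * E m (θ m) * (x k * aeval (θ m) (numH P k)) =
          (x k * E m (σ m (L (Sum.inl k) - L (Sum.inr k)))) *
            ∏ l, aeval (θ m) (both P l) := by
        intro k
        unfold numH
        rw [map_sub, map_sub, map_sub]
        linear_combination -(x k) * h1 (Sum.inl k) + (x k) * h1 (Sum.inr k)
      rw [Finset.sum_congr rfl fun k _ => h4 k, ← Finset.sum_mul, hs, zero_mul]
    exact (mul_eq_zero.1 h3).resolve_left (mul_ne_zero hM0 (hEθ0 m))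
  · intro k l
    rw [Pi.zero_apply, map_zero]

/-- independence of the logarithms -/
theorem indep (p : ℕ) (hp : p.Prime) (R : Type) [CommRing R] [IsDomain R] [CharZero R]
    (hR : PGood p R) {n : ℕ} (Z : Fin n → R)
    (hd : ∀ i, ∃ d : R → R, IsD d ∧ ∀ j, d (Z j) = if i = j then (p : R) else 0)
    {r : ℕ} (hr : r ≤ n) (P : Fin r → ℤ[X]) (hP : LinearIndependent ℤ (numH P))
    (hP0 : ∀ i, both P i ≠ 0) (M : ℕ) (hM : 0 < M) (L : Fin r ⊕ Fin r → AdjoinRoot (fp Z))
    (hL : ∀ k, IsLog p ((AdjoinRoot.mk (fp Z) ((both P k).map (Int.castRingHom R))) ^ M) (L k))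
    (h : Fin r → R)
    (hh : ∑ k, AdjoinRoot.of (fp Z) (h k) * (L (Sum.inl k) - L (Sum.inr k)) = 0) : h = 0 := by
  rcases Nat.eq_zero_or_pos n with h0 | hn
  · have : r = 0 := by omega
    subst this
    exact Subsingleton.elim _ _
  obtain ⟨W, _, j, σ, hj, hσ, hdet⟩ := exists_mat p hp R hR hn Z hd P hP hP0 M hM L hL
  have h1 := hdet (Fin.castLE hr) (Fin.castLE_injective hr)
  have h2 : (fun k => j (h k)) = 0 := by
    apply Matrix.eq_zero_of_vecMul_eq_zero h1
    funext l
    rw [Matrix.vecMul, dotProduct, Pi.zero_apply]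
    have h3 := congrArg (σ (Fin.castLE hr l)) hh
    rw [map_sum, map_zero] at h3
    rw [← h3]
    refine Finset.sum_congr rfl fun k _ => ?_
    rw [Matrix.of_apply, Pi.zero_apply, sub_zero, map_mul, hσ]
  funext k
  have h3 := congrFun h2 k
  apply hj
  rw [Pi.zero_apply, map_zero]
  exact h3

/-! ### multiplicative independence -/

/-- the `P_k(X) / P_k(-X)` are multiplicatively independent modulo constants -/
def MulIndH {r : ℕ} (P : Fin r → ℤ[X]) : Prop :=
  ∀ (a b : Fin r → ℕ) (c d : ℤ), c ≠ 0 → d ≠ 0 →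
    C c * ∏ k, (P k ^ a k * neg (P k) ^ b k) = C d * ∏ k, (P k ^ b k * neg (P k) ^ a k) → a = b

theorem der_prod {ι : Type} [Fintype ι] [DecidableEq ι] (P : ι → ℤ[X]) (a : ι → ℕ) :
    derivative (∏ k, P k ^ a k) * ∏ k, P k = (∏ k, P k ^ a k) * ∑ k, C (a k : ℤ) * nm P k := by
  rw [derivative_prod_finset, Finset.sum_mul, Finset.mul_sum]
  refine Finset.sum_congr rfl fun k _ => ?_
  unfold nm
  rw [← Finset.mul_prod_erase Finset.univ P (Finset.mem_univ k),
    ← Finset.mul_prod_erase Finset.univ (fun k => P k ^ a k) (Finset.mem_univ k), derivative_pow]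
  rcases Nat.eq_zero_or_pos (a k) with h | h
  · rw [h]
    simp
  · obtain ⟨m, hm⟩ : ∃ m, a k = m + 1 := ⟨a k - 1, by omega⟩
    rw [hm, Nat.add_sub_cancel]
    simp only [map_natCast]
    ring

theorem MulIndH.ne_zero {r : ℕ} {P : Fin r → ℤ[X]} (h : MulIndH P) (i : Fin r ⊕ Fin r) :
    both P i ≠ 0 := by
  classical
  have key : ∀ k, P k ≠ 0 := by
    intro k h0
    have h1 := h (Pi.single k 1) 0 1 1 one_ne_zero one_ne_zero (by
      congr 1
      have hn : neg (P k) = 0 := by
        unfold neg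
        rw [h0, zero_comp]
      rw [Finset.prod_eq_zero (Finset.mem_univ k), Finset.prod_eq_zero (Finset.mem_univ k)]
      · rw [Pi.single_eq_same, hn, zero_pow one_ne_zero, mul_zero]
      · rw [Pi.single_eq_same, h0, zero_pow one_ne_zero, zero_mul])
    have h2 := congrFun h1 k
    rw [Pi.single_eq_same, Pi.zero_apply] at h2
    omega
  rcases i with k | k
  · exact key k
  · intro h0
    apply key k
    have h1 : (neg (P k)).comp (-X) = P k := by
      unfold neg
      rw [comp_assoc, neg_comp, X_comp, neg_neg, comp_X]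
    change neg (P k) = 0 at h0
    rw [← h1, h0, zero_comp]

/-- independence of the logarithmic derivatives -/
theorem MulIndH.lin {r : ℕ} {P : Fin r → ℤ[X]} (h : MulIndH P) :
    LinearIndependent ℤ (numH P) := by
  classical
  rw [Fintype.linearIndependent_iff]
  intro e he k
  let a : Fin r → ℕ := fun k => (e k).toNat
  let b : Fin r → ℕ := fun k => (-e k).toNat
  have hab : ∀ k, (a k : ℤ) - b k = e k := fun k => Int.toNat_sub_toNat_neg (e k)
  have hsum : ∀ u v : Fin r → ℕ, ∏ i, both P i ^ (Sum.elim u v : Fin r ⊕ Fin r → ℕ) i =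
      ∏ k, (P k ^ u k * neg (P k) ^ v k) := by
    intro u v
    rw [Fintype.prod_sum_type, Finset.prod_mul_distrib]
    rfl
  have h1 := der_prod (both P) (Sum.elim a b)
  have h2 := der_prod (both P) (Sum.elim b a)
  have hP : ∏ i, both P i ≠ 0 := Finset.prod_ne_zero_iff.2 fun k _ => h.ne_zero k
  have hne : ∀ u : Fin r ⊕ Fin r → ℕ, ∏ i, both P i ^ u i ≠ 0 := fun u =>
    Finset.prod_ne_zero_iff.2 fun k _ => pow_ne_zero _ (h.ne_zero k)
  have h3 : ∑ i, C ((Sum.elim a b : Fin r ⊕ Fin r → ℕ) i : ℤ) * nm (both P) i -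
      ∑ i, C ((Sum.elim b a : Fin r ⊕ Fin r → ℕ) i : ℤ) * nm (both P) i = 0 := by
    rw [← he, Fintype.sum_sum_type, Fintype.sum_sum_type]
    simp only [Sum.elim_inl, Sum.elim_inr]
    have h4 : ∀ k, e k • numH P k = (C (a k : ℤ) - C (b k : ℤ)) * nm (both P) (Sum.inl k) -
        (C (a k : ℤ) - C (b k : ℤ)) * nm (both P) (Sum.inr k) := by
      intro k
      rw [smul_eq_C_mul, ← hab, C_sub]
      unfold numH
      ring
    simp only [h4, Finset.sum_sub_distrib, sub_mul]
    ring
  have h4 : derivative (∏ i, both P i ^ (Sum.elim a b : Fin r ⊕ Fin r → ℕ) i) *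
      (∏ i, both P i ^ (Sum.elim b a : Fin r ⊕ Fin r → ℕ) i) =
      (∏ i, both P i ^ (Sum.elim a b : Fin r ⊕ Fin r → ℕ) i) *
      derivative (∏ i, both P i ^ (Sum.elim b a : Fin r ⊕ Fin r → ℕ) i) := by
    apply mul_right_cancel₀ hP
    linear_combination (∏ i, both P i ^ (Sum.elim b a : Fin r ⊕ Fin r → ℕ) i) * h1 -
      (∏ i, both P i ^ (Sum.elim a b : Fin r ⊕ Fin r → ℕ) i) * h2 +
      (∏ i, both P i ^ (Sum.elim a b : Fin r ⊕ Fin r → ℕ) i) *
      (∏ i, both P i ^ (Sum.elim b a : Fin r ⊕ Fin r → ℕ) i) * h3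
  have h5 := prop_of (hne _) (hne _) h4
  rw [hsum, hsum] at h5
  have h6 := congrFun (h a b _ _ (leadingCoeff_ne_zero.2 (by rw [← hsum]; exact hne _))
    (leadingCoeff_ne_zero.2 (by rw [← hsum]; exact hne _)) h5) k
  rw [← hab k, h6, sub_self]

end

end Pool.Agent.N924.CH
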