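import Pool.Agent.N924.CH.Top
import Pool.Agent.N924.LP.Eq

set_option autoImplicit false

/-! # Quadratic extensions: closures of groups of points for almost all polynomials -/

namespace Pool.Agent.N924.CH

open Polynomial Pool.Agent.H33R4 Pool.Agent.N924.LP
open Pool.Agent.N924.CG (gp_map HasD exists_sysD IndZp)

noncomputable section

/-- the conclusion -/
def Full (p : ℕ) [Fact p.Prime] {n : ℕ} (z : Fin n → ℤ) {r : ℕ} (P : Fin r → ℤ[X]) : Prop :=
  ∀ (K : Type) [Field K] [NumberField K] (θ : K), aeval θ (fp z) = 0 →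
    Module.finrank ℚ K = n * 2 → IntermediateField.adjoin ℚ {θ} = ⊤ →
    ∀ x : Fin r → Kˣ, (∀ k, (x k : K) = aeval θ (P k) / aeval (-θ) (P k)) → IndZp p K x

theorem cop_congr {p : ℕ} {n : ℕ} {z z' : Fin n → ℤ} (h : ∀ i, (p : ℤ) ∣ z i - z' i) {P : ℤ[X]}
    (hz : Cop p z P) : Cop p z' P := by
  unfold Cop at hz ⊢
  have h1 : (fp z).map (Int.castRingHom (ZMod p)) = (fp z').map (Int.castRingHom (ZMod p)) := by
    rw [fp_map, fp_map]
    congr 1
    funext i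
    rw [eq_intCast, eq_intCast, ← sub_eq_zero, ← Int.cast_sub, ZMod.intCast_zmod_eq_zero_iff_dvd]
    exact h i
  rwa [← h1]

/-- **Closures of groups of points for almost all polynomials.** -/
theorem main {τ : Type} (S : ℕ → Finset τ) (p : ℕ) [hp : Fact p.Prime] {n : ℕ}
    (z : τ → Fin n → ℤ) (hz : Eqd S z) {r : ℕ} (hr : r ≤ n) (P : Fin r → ℤ[X]) (hP : MulIndH P) :
    Nul S {t | (∀ k, Cop p (z t) (P k)) ∧ ¬ Full p (z t) P} := by
  classical
  have hne2 : NeZero (p ^ 2) := ⟨pow_ne_zero _ hp.out.ne_zero⟩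
  obtain ⟨Y, hY⟩ := exists_sysD p n
  let rep : (Fin n → ZMod (p ^ 2)) → Fin n → ℤ := fun R i => ((R i).val : ℤ)
  have hex : ∀ R : Fin n → ZMod (p ^ 2), ∃ h : Y.R, h ≠ 0 ∧
      ((∀ k, Cop p (rep R) (P k)) → ∀ z y : Fin n → ℤ,
        (∀ i, z i = rep R i + (p : ℤ) ^ 2 * y i) → ¬ IndH p z P →
        Y.ev (fun i => ((y i : ℤ) : ℤ_[p])) h = 0) := by
    intro R
    by_cases hc : ∀ k, Cop p (rep R) (P k)
    · obtain ⟨h, h0, h1⟩ := cls0 Y hY hr P hP (rep R) hc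
      exact ⟨h, h0, fun _ => h1⟩
    · exact ⟨1, one_ne_zero, fun h => absurd h hc⟩
  choose h hh0 hh using hex
  have hB : Nul S {t | ∃ R ∈ (Finset.univ : Finset (Fin n → ZMod (p ^ 2))), t ∈
      (fun R => {t | ∃ y : Fin n → ℤ, (∀ i, z t i = rep R i + (p : ℤ) ^ 2 * y (Equiv.refl _ i)) ∧
        Y.ev (fun i => ((y i : ℤ) : ℤ_[p])) (h R) = 0}) R} :=
    nul_union _ _ fun R _ => nul_class hz (Equiv.refl _) Y (h R) (hh0 R) _
  refine hB.mono ?_
  rintro t ⟨hcop, hbad⟩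
  have hbad' : ¬ IndH p (z t) P := fun hI =>
    hbad fun K _ _ θ hθ hdeg hgen x hx => core (z t) P hI K θ hθ hdeg hgen x hx
  let R : Fin n → ZMod (p ^ 2) := fun i => ((z t i : ℤ) : ZMod (p ^ 2))
  have hdvd : ∀ i, (p : ℤ) ^ 2 ∣ z t i - rep R i := by
    intro i
    have h1 : ((p ^ 2 : ℕ) : ℤ) ∣ z t i - ((R i).val : ℤ) := by
      rw [← ZMod.intCast_zmod_eq_zero_iff_dvd]
      push_cast
      rw [ZMod.natCast_zmod_val]
      exact sub_self _
    exact_mod_cast h1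
  choose y hy using hdvd
  have hy' : ∀ i, z t i = rep R i + (p : ℤ) ^ 2 * y i := by
    intro i
    rw [← hy i]
    ring
  refine ⟨R, Finset.mem_univ _, y, hy', hh R ?_ (z t) y hy' hbad'⟩
  intro k
  exact cop_congr (fun i => (dvd_pow_self _ two_ne_zero).trans ⟨y i, hy i⟩) (hcop k)

end

end Pool.Agent.N924.CH
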