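import Pool.Agent.N924.CH.Cls
import Pool.Agent.N924.CG.Top

set_option autoImplicit false

/-! # Quadratic extensions: convergence in `(ℚ_p ⊗ K)ˣ` and congruences in `ℤ_p[θ]` -/

namespace Pool.Agent.N924.CH

open Polynomial Pool.Agent.H33R4 Pool.Agent.N924.LP Filter Topology
open Pool.Agent.H440R3 (Kp QpPoints incl)
open Pool.Agent.N924.CG (IndZp emb incl_val)
open scoped TensorProduct

noncomputable section

variable {p : ℕ} [hp : Fact p.Prime]

section lattice

variable {n : ℕ} (z : Fin n → ℤ) (K : Type) [Field K] [NumberField K] (θ : K)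

theorem ev_zero (hθ : aeval θ (fp z) = 0) :
    ((fp z).map (Int.castRingHom ℤ_[p])).eval₂ ((algebraMap ℚ_[p] (Kp p K)).comp
      PadicInt.Coe.ringHom) (emb p K θ) = 0 := by
  rw [Polynomial.eval₂_map]
  have h1 := congrArg (emb p K) hθ
  rw [map_zero, aeval_def, Polynomial.hom_eval₂] at h1
  rw [← h1]
  exact congrArg (fun f => (fp z).eval₂ f (emb p K θ)) (RingHom.ext_int _ _)

/-- the homomorphism from `ℤ_p[θ]` -/
def Psi (hθ : aeval θ (fp z) = 0) : Zt p z →+* Kp p K :=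
  AdjoinRoot.lift ((algebraMap ℚ_[p] (Kp p K)).comp PadicInt.Coe.ringHom) (emb p K θ)
    (ev_zero z K θ hθ)

theorem Psi_vl (hθ : aeval θ (fp z) = 0) (Q : ℤ[X]) :
    Psi (p := p) z K θ hθ (vl p z Q) = emb p K (aeval θ Q) := by
  unfold Psi vl
  rw [AdjoinRoot.lift_mk, Polynomial.eval₂_map, aeval_def, Polynomial.hom_eval₂]
  exact congrArg (fun f => Q.eval₂ f (emb p K θ)) (RingHom.ext_int _ _)

variable (hθ : aeval θ (fp z) = 0) (hdeg : Module.finrank ℚ K = n * 2)
  (hgen : IntermediateField.adjoin ℚ {θ} = ⊤)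

include hdeg hgen in
/-- the basis `1 ⊗ θ ^ i` -/
theorem exists_basis : ∃ B : Module.Basis (Fin (n * 2)) ℚ_[p] (Kp p K),
    ∀ i, B i = emb p K θ ^ (i : ℕ) := by
  have hd : (minpoly ℚ θ).natDegree = n * 2 := by
    rw [← hdeg]
    exact (Field.primitive_element_iff_minpoly_natDegree_eq ℚ θ).1 hgen
  have hli : LinearIndependent ℚ (fun i : Fin (n * 2) => θ ^ (i : ℕ)) := by
    have h1 := linearIndependent_pow (K := ℚ) θ
    rw [hd] at h1
    exact h1
  have hpos : 0 < n * 2 := by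
    rw [← hdeg]
    exact Module.finrank_pos
  have _ : Nonempty (Fin (n * 2)) := ⟨⟨0, hpos⟩⟩
  refine ⟨Algebra.TensorProduct.basis ℚ_[p] (basisOfLinearIndependentOfCardEqFinrank hli
    (by rw [Fintype.card_fin, hdeg])), fun i => ?_⟩
  rw [Algebra.TensorProduct.basis_apply, coe_basisOfLinearIndependentOfCardEqFinrank, ← map_pow]
  rfl

include hdeg hgen in
/-- a neighbourhood of zero -/
theorem near (T : ℕ) : ∀ᶠ x in 𝓝 (0 : Kp p K), ∃ w : Zt p z,
    x = (p : Kp p K) ^ T * Psi z K θ hθ w := by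
  obtain ⟨B, hB⟩ := exists_basis (p := p) K θ hdeg hgen
  have hcont : ∀ i, Continuous fun x : Kp p K => B.repr x i := fun i =>
    IsModuleTopology.continuous_of_linearMap (B.coord i)
  have hp0 : (0 : ℝ) < (p : ℝ)⁻¹ ^ T := by
    have : (0 : ℝ) < p := by exact_mod_cast hp.out.pos
    positivity
  have h1 : ∀ᶠ x in 𝓝 (0 : Kp p K), ∀ i, ‖B.repr x i‖ < (p : ℝ)⁻¹ ^ T := by
    rw [Filter.eventually_all]
    intro i
    have h2 : Tendsto (fun x : Kp p K => ‖B.repr x i‖) (𝓝 0) (𝓝 ‖B.repr (0 : Kp p K) i‖) :=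
      (hcont i).norm.tendsto 0
    rw [map_zero, Finsupp.zero_apply, norm_zero] at h2
    exact h2.eventually (gt_mem_nhds hp0)
  filter_upwards [h1] with x hx
  have hpQ : (p : ℚ_[p]) ≠ 0 := by exact_mod_cast hp.out.ne_zero
  have hc : ∀ i, ∃ c : ℤ_[p], B.repr x i = (p : ℚ_[p]) ^ T * (c : ℚ_[p]) := by
    intro i
    refine ⟨⟨B.repr x i / (p : ℚ_[p]) ^ T, ?_⟩, ?_⟩
    · rw [norm_div, norm_pow, Padic.norm_p, div_le_one hp0]
      exact (hx i).le
    · change _ = (p : ℚ_[p]) ^ T * (B.repr x i / (p : ℚ_[p]) ^ T)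
      field_simp
  choose c hc using hc
  refine ⟨∑ i : Fin (n * 2), AdjoinRoot.of _ (c i) * AdjoinRoot.root _ ^ (i : ℕ), ?_⟩
  conv_lhs => rw [← B.sum_repr x]
  rw [map_sum, Finset.mul_sum]
  refine Finset.sum_congr rfl fun i _ => ?_
  rw [hB, hc, map_mul, map_pow]
  unfold Psi
  rw [AdjoinRoot.lift_of, AdjoinRoot.lift_root, Algebra.smul_def, map_mul, map_pow, map_natCast,
    mul_assoc]
  rfl

include hdeg hgen in
theorem Psi_inj : Function.Injective (Psi (p := p) z K θ hθ) := by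
  rw [injective_iff_map_eq_zero]
  intro w hw
  obtain ⟨B, hB⟩ := exists_basis (p := p) K θ hdeg hgen
  obtain ⟨Q, rfl⟩ := AdjoinRoot.mk_surjective w
  have hG : ((fp z).map (Int.castRingHom ℤ_[p])).Monic := (fp_monic z).map _
  have hdG : ((fp z).map (Int.castRingHom ℤ_[p])).natDegree = n * 2 := by
    rw [(fp_monic z).natDegree_map, fp_natDegree]
  set Q₁ := Q %ₘ ((fp z).map (Int.castRingHom ℤ_[p])) with hQ₁
  have hmk : AdjoinRoot.mk ((fp z).map (Int.castRingHom ℤ_[p])) Q = AdjoinRoot.mk _ Q₁ := by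
    rw [AdjoinRoot.mk_eq_mk, hQ₁]
    have h1 := modByMonic_add_div Q ((fp z).map (Int.castRingHom ℤ_[p]))
    refine ⟨Q /ₘ ((fp z).map (Int.castRingHom ℤ_[p])), ?_⟩
    linear_combination -h1
  have hdeg1 : Q₁.degree < (n * 2 : ℕ) := by
    have h1 := degree_modByMonic_lt Q hG
    rwa [degree_eq_natDegree hG.ne_zero, hdG] at h1
  rw [hmk] at hw ⊢
  unfold Psi at hw
  rw [AdjoinRoot.lift_mk] at hw
  have h2 : Q₁.eval₂ ((algebraMap ℚ_[p] (Kp p K)).comp PadicInt.Coe.ringHom) (emb p K θ) =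
      ∑ i : Fin (n * 2), ((Q₁.coeff (i : ℕ) : ℤ_[p]) : ℚ_[p]) • B i := by
    have hnat : Q₁ = 0 ∨ Q₁.natDegree < n * 2 := by
      by_cases h0 : Q₁ = 0
      · exact Or.inl h0
      · right
        exact (natDegree_lt_iff_degree_lt h0).2 hdeg1
    rcases hnat with h0 | h0
    · rw [h0]
      simp
    · rw [eval₂_eq_sum_range' _ h0, Finset.sum_range]
      refine Finset.sum_congr rfl fun i _ => ?_
      rw [hB, Algebra.smul_def]
      rfl
  rw [h2] at hw
  have h3 := Fintype.linearIndependent_iff.1 B.linearIndependent _ hw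
  have h4 : Q₁ = 0 := by
    ext i
    rw [coeff_zero]
    by_cases hi : i < n * 2
    · have h5 : ((Q₁.coeff i : ℤ_[p]) : ℚ_[p]) = ((0 : ℤ_[p]) : ℚ_[p]) := by
        rw [PadicInt.coe_zero]
        exact h3 ⟨i, hi⟩
      exact Subtype.coe_injective h5
    · apply coeff_eq_zero_of_degree_lt
      exact hdeg1.trans_le (by exact_mod_cast not_lt.1 hi)
  rw [h4, map_zero]

end lattice

theorem vl_sub {n : ℕ} (z : Fin n → ℤ) (A B : ℤ[X]) : vl p z (A - B) = vl p z A - vl p z B := by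
  unfold vl
  rw [Polynomial.map_sub, map_sub]

theorem vl_mul {n : ℕ} (z : Fin n → ℤ) (A B : ℤ[X]) : vl p z (A * B) = vl p z A * vl p z B := by
  unfold vl
  rw [Polynomial.map_mul, map_mul]

/-- **From congruences to convergence.** -/
theorem core {n : ℕ} (z : Fin n → ℤ) {r : ℕ} (P : Fin r → ℤ[X]) (H : IndH p z P)
    (K : Type) [Field K] [NumberField K] (θ : K) (hθ : aeval θ (fp z) = 0)
    (hdeg : Module.finrank ℚ K = n * 2) (hgen : IntermediateField.adjoin ℚ {θ} = ⊤)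
    (x : Fin r → Kˣ) (hx : ∀ k, (x k : K) = aeval θ (P k) / aeval (-θ) (P k)) :
    IndZp p K x := by
  classical
  obtain ⟨c, hc⟩ := H
  have hP1 : ∀ k, aeval θ (P k) ≠ 0 := by
    intro k h0
    apply (x k).ne_zero
    rw [hx, h0, zero_div]
  have hP2 : ∀ k, aeval (-θ) (P k) ≠ 0 := by
    intro k h0
    apply (x k).ne_zero
    rw [hx, h0, div_zero]
  intro a ha i
  -- congruences for the exponents
  have key : ∀ N : ℕ, ∀ᶠ k in atTop, (p : ℤ) ^ N ∣ a k i := by
    intro N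
    have h1 : Tendsto (fun k => ((incl p K (∏ i, x i ^ a k i) : QpPoints p K) : Kp p K) - 1)
        atTop (𝓝 0) := by
      have h2 := (Units.continuous_val (M := Kp p K)).tendsto 1
      rw [Units.val_one] at h2
      have h3 := (h2.comp ha).sub_const 1
      rw [sub_self] at h3
      exact h3
    filter_upwards [h1.eventually (near z K θ hθ hdeg hgen (N + c))] with k hk
    obtain ⟨w, hw⟩ := hk
    set u : Fin r → ℕ := fun i => (a k i).toNat with hu
    set v : Fin r → ℕ := fun i => (-a k i).toNat with hv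
    -- the equation in `K`
    have h4 : ((∏ i, x i ^ a k i : Kˣ) : K) *
        aeval θ (∏ i, (P i ^ v i * neg (P i) ^ u i)) =
        aeval θ (∏ i, (P i ^ u i * neg (P i) ^ v i)) := by
      rw [Units.coe_prod]
      simp only [Units.val_zpow_eq_zpow_val, hx]
      rw [map_prod, map_prod, ← Finset.prod_mul_distrib]
      refine Finset.prod_congr rfl fun i _ => ?_
      rw [map_mul, map_mul, map_pow, map_pow, map_pow, map_pow, neg_aeval, div_zpow]
      have h7 : ((a k i).toNat : ℤ) - ((-a k i).toNat : ℤ) = a k i :=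
        Int.toNat_sub_toNat_neg (a k i)
      have h8 : ∀ y : K, y ≠ 0 → y ^ (a k i) * y ^ (v i) = y ^ (u i) := by
        intro y hy
        rw [← zpow_natCast y (v i), ← zpow_natCast y (u i), ← zpow_add₀ hy]
        congr 1
        rw [hu, hv]
        linear_combination -h7
      have h9 := h8 _ (hP1 i)
      have h10 := h8 _ (hP2 i)
      have h11 : aeval (-θ) (P i) ^ (a k i) ≠ 0 := zpow_ne_zero _ (hP2 i)
      rw [← h9, ← h10]
      field_simp
    have h5 : vl p z (∏ i, (P i ^ u i * neg (P i) ^ v i) - ∏ i, (P i ^ v i * neg (P i) ^ u i)) =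
        (p : Zt p z) ^ (N + c) * (w * vl p z (∏ i, (P i ^ v i * neg (P i) ^ u i))) := by
      apply Psi_inj z K θ hθ hdeg hgen
      rw [vl_sub, map_sub, map_mul (Psi z K θ hθ), map_mul (Psi z K θ hθ) w, map_pow,
        map_natCast (Psi z K θ hθ), Psi_vl, Psi_vl, ← mul_assoc, ← hw, incl_val, ← h4, map_mul]
      ring
    have h6 := hc N u v ⟨_, h5⟩ i
    have h7 : ((a k i).toNat : ℤ) - ((-a k i).toNat : ℤ) = a k i :=
      Int.toNat_sub_toNat_neg (a k i)
    have h8 : ((u i : ℕ) : ℤ) - v i = a k i := by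
      rw [hu, hv]
      exact h7
    rwa [h8] at h6
  rw [tendsto_zero_iff_norm_tendsto_zero, Metric.tendsto_nhds]
  intro ε hε
  have hp1 : (1 : ℝ) < p := by exact_mod_cast hp.out.one_lt
  obtain ⟨N, hN⟩ := exists_pow_lt_of_lt_one hε (inv_lt_one_of_one_lt₀ hp1)
  filter_upwards [key N] with k hk
  rw [Real.dist_eq, sub_zero, abs_of_nonneg (norm_nonneg _)]
  refine lt_of_le_of_lt ?_ hN
  have h11 : ‖((a k i : ℤ) : ℤ_[p])‖ ≤ (p : ℝ) ^ (-(N : ℤ)) :=
    PadicInt.norm_int_le_pow_iff_dvd.2 (by exact_mod_cast hk)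
  rwa [zpow_neg, zpow_natCast, ← inv_pow] at h11

end

end Pool.Agent.N924.CH
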